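import Pool.Agent.Run7.h30.MF.Defs

/-!
# Fujita's freeness conjecture for branched abelian covers

Let `T` be a smooth projective variety and `H_1, …, H_q` globally generated line bundles on `T` which
together embed `T` in a product of projective spaces. We consider the smooth abelian covers
`π : X → T` branched along divisors `D_i` of the classes `∑ δ_{ik} H_k`, with normal crossings, whose
building data are combinations of the `H_k`, as quotients of the cone `z_i ^ e_i = F_i(x)` over `T` by
a group `𝓗 ⊆ (ℂˣ)^q × (ℂˣ)^r` acting freely; see the file `Pool.Agent.Run7.h30.MF.Defs`, which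
contains the definitions. Each `H_k` occurs in all branch divisors or in none. If all occur in all
(for instance if `T` is a product of projective spaces and the `D_i` are ample), then any `n = dim T`
of the `D_i` meet; in general `n` is the dimension of the image of `T` under the `H_k` which occur,
and at most `n` of the `D_i` pass through a point.

The result. Let `K_T = ∑ κ_k H_k`, `κ_k ≥ -(n + 1)` for the `H_k` which occur in the `D_i`, and let
`A_1, …, A_m` be line bundles `O(l, u)` all of whose degrees are not negative. If for each `k` at least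
`-κ_k` of the `A_j` have a positive degree `k`, then `K_X + A_1 + … + A_m` is globally generated.

* If `T = P^(n_1) × … × P^(n_q)`, `n = n_1 + … + n_q`, `q ≥ 1`, and the `D_i` are ample, then
  `κ_k = -(n_k + 1) ≥ -(n + 1)`, and `O(l, u)` is ample (nef) if and only if all its degrees are
  positive (not negative). So `K_X + A_1 + … + A_m + B` is globally generated for all ample
  `A_j = O(l_j, u_j)`, nef `B`, and `m ≥ max n_k + 1`, in particular for `m ≥ n + 1`.
* If `T` is any smooth variety of dimension `n` and `H_1` is very ample, then `Ω = K_T + (n + 1) H_1`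
  is globally generated (Sommese and Van de Ven). Take `Ω` as a further line bundle which does not
  occur in the `D_i`: then `κ_1 = -(n + 1)`, the coefficient of `Ω` in `K_T` is `1` and the other
  `κ_k` are `0`. So `K_X + A_1 + … + A_m + B` is globally generated for `m ≥ n + 1`; and for `m ≥ n` if
  `(T, H_1) ≠ (P^n, O(1))`.

This is the first conjecture of Fujita for these `X` and the line bundles of the form `O(l, u)` (all
of them if `n ≥ 3` and `T` is `P^n` or a complete intersection and `q = 1`).

The starting result `MP_e09b14_ag.AbelianCovers` is the very ampleness of `K_X + m A` for `q = 1`,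
`m ≥ n + 2` for the covers of `P^n`; it does not contain the freeness of `K_X + (n + 1) A` there.

The proof uses the counting lemmas of the starting library `K3h47.FU`, in a form in which one
monomial in the `z_i` is good for all the degrees (`exists_list'`).
-/

set_option autoImplicit false

namespace Pool.Agent.Results.MP_9ff3e7_ag.AbelianCovers

open MvPolynomial Pool.Agent.Run7.h30.MF Pool.Agent.K3h47.FU

variable {N q c r n : ℕ}

/-- `O(ρ)` is globally generated: its sections have no base point on `X`. -/
def GloballyGenerated (D : Cover N q c r n) (ρ : (Fin q → ℤ) × (Fin r → ℤ)) : Prop :=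
  ∀ x z, OnCone D.color D.G D.F D.e x z → ∃ Φ, D.IsSection ρ Φ ∧ value x z Φ ≠ 0

/-- **Fujita's freeness conjecture for branched abelian covers.** -/
theorem result (N q c r n : ℕ) (D : Cover N q c r n) (κ : Fin q → ℤ)
    (hκ : ∀ k, (∀ i, 0 < D.δ i k) → -((n : ℤ) + 1) ≤ κ k) (m : ℕ)
    (A : Fin m → (Fin q → ℤ) × (Fin r → ℤ)) (hA : ∀ j k, 0 ≤ degree D.δ D.e (A j) k)
    (hm : ∀ k, -κ k ≤ D.number A k) : GloballyGenerated D (D.adjoint κ A) := by
  classical
  intro x z hxz
  have h := D.mdat
  have hβ := big D κ A hA 1 zero_le_one le_rfl hκ (fun k => by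
    have := hm k
    omega)
  obtain ⟨v, hv⟩ := exists_lin hxz.1.1
  obtain ⟨L, a, hL, ha, hR⟩ := h.E1 hβ _ (D.few x z hxz)
  have hL' : ∃ K : Fin q → ℕ, ∀ k, L k = K k + 1 := by
    refine ⟨fun k => (L k - 1).toNat, fun k => ?_⟩
    have h1 := hL k
    change L k = ((L k - 1).toNat : ℤ) + 1
    omega
  obtain ⟨K, hK⟩ := hL'
  refine ⟨monoM N a * pw r D.color v K, ?_, ?_⟩
  · refine BiM.sec (L := K) (a := a) ?_ ?_
    · have := (BiM.mono D.color a).mul (BiM.pw (r := r) D.color v K)
      simpa using this
    · have h1 : (((fun k => (D.adjoint κ A).1 k - (K k : ℤ)),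
          fun i => (D.adjoint κ A).2 i - (a i : ℤ)) : (Fin q → ℤ) × (Fin r → ℤ)) =
          ((fun k => (D.adjoint κ A).1 k + 1 - L k), fun i => (D.adjoint κ A).2 i - (a i : ℤ)) := by
        refine Prod.ext (funext fun k => ?_) rfl
        change (D.adjoint κ A).1 k - (K k : ℤ) = (D.adjoint κ A).1 k + 1 - L k
        rw [hK k]
        ring
      rw [h1]
      exact hR
  · rw [value, map_mul, eval_monoM]
    exact mul_ne_zero (prod_neM h hβ ha) (pw_ne K hv z)

end Pool.Agent.Results.MP_9ff3e7_ag.AbelianCovers
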