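import Pool.Agent.Run7.h971.AQ.B

/-!
# Fujita's freeness conjecture for étale quotients by abelian groups of linear maps

`Y ⊂ P^N` is given by a homogeneous ideal `I`, and a finite COMMUTATIVE group `G` acts linearly on
`ℂ^(N+1)`, preserving `I`; the group `G/S`, `S` the subgroup of the elements acting by scalars, acts
freely on `Y`. For example `G/S` can be any finite cyclic group of projective transformations. Let
`n = dim Y` and `ω_Y = O(κ)`. The line bundles on `X = Y/G` whose pullback to `Y` is `O(k)` are given
by the characters of `G` which are `c ^ k` on the elements acting by the scalar `c`. If `A_1, ..., A_m`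
are line bundles on `X` with the pullbacks `O(k_1), ..., O(k_m)` then the sections of
`K_X + A_1 + ... + A_m` are the forms of degree `e = κ + k_1 + ... + k_m` on the cone over `Y` on
which `G` acts by a certain character `χ`, which is `c ^ e` on the elements acting by the scalar `c`.

Let `m ≥ n + 1` and `k_i ≥ k ≥ 1` for all `i`, and let `Y` be a complete intersection of any
codimension, or arithmetically Cohen-Macaulay. Then `K_X + A_1 + ... + A_m` is globally generated.
There is NO condition on the order of the group. If `Y` is a smooth complete intersection of dimension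
at least `3` then all automorphisms of `Y` are projective and `Pic Y` is generated by `O(1)`, hence the
theorem contains Fujita's freeness conjecture for all varieties `X` with an étale cover of cyclic group
by such a `Y`, for all ample line bundles on `X`.

The starting result `MP_e09b14_ag.SmallDiagonalQuotients` (very ampleness) needs `m ≥ n + 2` and
`|G| ≤ e` or a hypersurface, the result `EtaleQuotients` on this page (arbitrary groups) needs
`|G/S| ≤ 2 e + 1` or a hypersurface.

The proof. In coordinates in which `G` is diagonal one looks for a monomial of degree `e` with a given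
character which does not vanish at `y`. Only the support of `y` matters, and `y` may be replaced by
a point `w` of `Y` whose support is minimal. Then `Y` has no point in common with the linear subspace
defined by the variables which vanish at `w` and one more variable `x_i`. For a complete intersection
or a Cohen-Macaulay ideal all forms of degree greater than `κ + n + 1` are therefore in the ideal
generated by `I` and these variables. So if a character occurs in degree `t + 1 > κ + n + 1`
at `w` then the character divided by that of `x_i` occurs in degree `t`, and in large degrees all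
characters occur. This is the lemma `Sit.exists_monomial` of the starting library.
-/

set_option autoImplicit false

namespace Pool.Agent.Results.MP_9ff3e7_ag.AbelianQuotients

open MvPolynomial

/-- A homogeneous ideal `I` in `ℂ[x_0, …, x_N]` and a linear action `ρ` of the commutative group `G`
on `ℂ^(N+1)`. The ideal `I` is stable under `G`, and an element which fixes a line in the zero set of
`I` acts by a scalar. -/
structure AbelianCover (G : Type) [CommGroup G] (N : ℕ) where
  I : Ideal (MvPolynomial (Fin (N + 1)) ℂ)
  homogeneous : ∀ p ∈ I, ∀ n, homogeneousComponent n p ∈ I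
  ρ : Representation ℂ G (Fin (N + 1) → ℂ)
  stable : ∀ (g : G), ∀ p ∈ I, bind₁ (fun i => ∑ j, C (ρ g (Pi.single j 1) i) * X j) p ∈ I
  free : ∀ v : Fin (N + 1) → ℂ, v ≠ 0 → (∀ p ∈ I, eval v p = 0) → ∀ (g : G) (μ : ℂ),
    ρ g v = μ • v → ∃ c : ℂ, ∀ x, ρ g x = c • x

/-- the linear form with coefficients `a` -/
noncomputable def linForm {N : ℕ} (a : Fin (N + 1) → ℂ) : MvPolynomial (Fin (N + 1)) ℂ :=
  ∑ i, C (a i) * X i

/-- `I` is generated by `c = N - n` forms of degrees `d j ≥ 1`, and `κ = ∑ d j - (N + 1)`. -/
def CompleteIntersection {N : ℕ} (I : Ideal (MvPolynomial (Fin (N + 1)) ℂ)) (n : ℕ) (κ : ℤ) :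
    Prop :=
  ∃ (c : ℕ) (f : Fin c → MvPolynomial (Fin (N + 1)) ℂ) (d : Fin c → ℕ),
    (∀ j, (f j).IsHomogeneous (d j) ∧ 0 < d j) ∧ I = Ideal.span (Set.range f) ∧
    N = n + c ∧ κ = ∑ j, (d j : ℤ) - (N + 1)

/-- There are `n + 1` linear forms which are a regular sequence modulo `I`, and modulo `I` and these
linear forms there are no nonzero forms of degree `> κ + n + 1`. For the ideal of an arithmetically
Cohen-Macaulay variety of dimension `n` this says that the `a`-invariant is at most `κ`. -/
def CohenMacaulay {N : ℕ} (I : Ideal (MvPolynomial (Fin (N + 1)) ℂ)) (n : ℕ) (κ : ℤ) : Prop :=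
  ∃ a : Fin (n + 1) → Fin (N + 1) → ℂ,
    (∀ i p, linForm (a i) * p ∈ I ⊔ Ideal.span ((fun j => linForm (a j)) '' {j | j < i}) →
      p ∈ I ⊔ Ideal.span ((fun j => linForm (a j)) '' {j | j < i})) ∧
    ∀ t : ℕ, κ + n + 1 < t → ∀ p : MvPolynomial (Fin (N + 1)) ℂ, p.IsHomogeneous t →
      p ∈ I ⊔ Ideal.span (Set.range fun j => linForm (a j))

/-- The forms of degree `e` on which `G` acts by the character `χ`: the sections of the line bundle
on `X = Y/G` given by `e` and `χ`. -/
def Section {G : Type} [CommGroup G] {N : ℕ} (D : AbelianCover G N) (e : ℕ) (χ : G →* ℂˣ)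
    (F : MvPolynomial (Fin (N + 1)) ℂ) : Prop :=
  F.IsHomogeneous e ∧
    ∀ (g : G) (x : Fin (N + 1) → ℂ), eval (D.ρ g x) F = χ g * eval x F

open Pool.Agent.TH144.MB in
theorem reg_ofFn {N : ℕ} (s : ℕ) : ∀ (a : Fin s → Fin (N + 1) → ℂ)
    (I : Ideal (MvPolynomial (Fin (N + 1)) ℂ)),
    (∀ i p, linForm (a i) * p ∈ I ⊔ Ideal.span ((fun j => linForm (a j)) '' {j | j < i}) →
      p ∈ I ⊔ Ideal.span ((fun j => linForm (a j)) '' {j | j < i})) →
    Reg I ((List.ofFn a).map lin) := by
  induction s with
  | zero => intro a I _; simp [Reg]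
  | succ s ih =>
    intro a I h
    rw [List.ofFn_succ, List.map_cons]
    refine ⟨?_, ih _ _ ?_⟩
    · have h0 := h 0
      have h1 : {j : Fin (s + 1) | j < 0} = ∅ := by
        ext j
        simp
      rw [h1, Set.image_empty, Ideal.span_empty, sup_bot_eq] at h0
      exact h0
    · intro i p
      have h0 := h i.succ p
      have h1 : {j : Fin (s + 1) | j < i.succ} = {0} ∪ Fin.succ '' {j | j < i} := by
        ext j
        refine Fin.cases ?_ (fun j => ?_) j
        · simp
        · simp [Fin.succ_ne_zero]
      have h2 : I ⊔ Ideal.span ((fun j => linForm (a j)) '' {j | j < i.succ})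
          = I ⊔ Ideal.span {lin (a 0)}
            ⊔ Ideal.span ((fun j => linForm (a (Fin.succ j))) '' {j | j < i}) := by
        rw [h1, Set.image_union, Set.image_singleton, Ideal.span_union, ← sup_assoc,
          Set.image_image]
        rfl
      rw [h2] at h0
      exact h0

open Pool.Agent.TH144.MB in
theorem le_ext_ofFn {N : ℕ} (s : ℕ) (a : Fin s → Fin (N + 1) → ℂ)
    (I : Ideal (MvPolynomial (Fin (N + 1)) ℂ)) :
    I ⊔ Ideal.span (Set.range fun j => linForm (a j)) ≤ ext I ((List.ofFn a).map lin) := by
  have h4 : ∀ (L : List (MvPolynomial (Fin (N + 1)) ℂ))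
      (I : Ideal (MvPolynomial (Fin (N + 1)) ℂ)), ∀ f ∈ L, f ∈ ext I L := by
    intro L
    induction L with
    | nil => intro I f hf; simp at hf
    | cons g L ih =>
      intro I f hf
      rw [ext_cons]
      rcases List.mem_cons.1 hf with rfl | hf
      · exact Ideal.mem_sup_right (Ideal.mem_span_singleton_self f)
      · exact Ideal.mem_sup_left (ih I f hf)
  refine sup_le (le_ext _ _) ?_
  rw [Ideal.span_le]
  rintro _ ⟨j, rfl⟩
  refine h4 _ _ _ (List.mem_map.2 ⟨a j, ?_, rfl⟩)
  rw [List.mem_ofFn]
  exact ⟨j, rfl⟩

/-- Let `k ≥ 1`, `m ≥ n + 1` and `e ≥ κ + m k`, and let `χ` be a character which is `c ^ e` on the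
elements acting by the scalar `c`. Then the forms of degree `e` with the character `χ` have no common
zero on `Y`. -/
theorem result {G : Type} [CommGroup G] [Finite G] {N : ℕ} (D : AbelianCover G N) (n : ℕ) (κ : ℤ)
    (hY : CompleteIntersection D.I n κ ∨ CohenMacaulay D.I n κ)
    (k m e : ℕ) (hk : 1 ≤ k) (hm : n + 1 ≤ m) (he : κ + m * k ≤ (e : ℤ))
    (χ : G →* ℂˣ) (hχ : ∀ (g : G) (c : ℂ), (∀ x, D.ρ g x = c • x) → (χ g : ℂ) = c ^ e) :
    ∀ y : Fin (N + 1) → ℂ, y ≠ 0 → (∀ p ∈ D.I, eval y p = 0) →
      ∃ F, Section D e χ F ∧ eval y F ≠ 0 := by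
  intro y hy0 hy
  have hmk : (n : ℤ) + 1 ≤ m * k := by
    have h1 : n + 1 ≤ m * k := hm.trans (Nat.le_mul_of_pos_right m hk)
    exact_mod_cast h1
  have key : ∃ r, Pool.Agent.TH144.MB.TopBound D.I r ∧ r ≤ e := by
    rcases hY with ⟨c, f, d, hfd, hI, hN, hκ⟩ | ⟨a, ha, hb⟩
    · refine ⟨∑ j, (d j - 1), ?_, ?_⟩
      · rw [hI]
        exact Pool.Agent.TH144.MB.topBound_forms f d (fun j => (hfd j).1) fun j => (hfd j).2
      · have h1 : ((∑ j, (d j - 1) : ℕ) : ℤ) = ∑ j, (d j : ℤ) - c := by
          rw [Nat.cast_sum]
          have h2 : ∀ j, ((d j - 1 : ℕ) : ℤ) = (d j : ℤ) - 1 := fun j => by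
            have := (hfd j).2
            omega
          simp only [h2]
          rw [Finset.sum_sub_distrib]
          simp
        have h3 : (N : ℤ) = n + c := by exact_mod_cast hN
        have h4 : ((∑ j, (d j - 1) : ℕ) : ℤ) ≤ e := by
          rw [h1]
          rw [hκ, h3] at he
          linarith
        exact_mod_cast h4
    · rcases lt_or_ge (κ + n + 1) 0 with h0 | h0
      · exfalso
        have h1 := hb 0 (by simpa using h0) 1 (isHomogeneous_one _ _)
        have h2 : D.I ⊔ Ideal.span (Set.range fun j => linForm (a j))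
            ≤ RingHom.ker (eval (fun i => (0 : ℂ) * y i)) := by
          refine sup_le (fun p hp => RingHom.mem_ker.2
            (Pool.Agent.TH144.MB.cone D.homogeneous hy 0 p hp)) ?_
          rw [Ideal.span_le]
          rintro _ ⟨j, rfl⟩
          refine RingHom.mem_ker.2 ?_
          simp [linForm]
        have h3 := RingHom.mem_ker.1 (h2 h1)
        rw [map_one] at h3
        exact one_ne_zero h3
      · refine ⟨(κ + n + 1).toNat, ?_, by omega⟩
        refine Pool.Agent.TH144.MB.topBound_cm D.homogeneous (List.ofFn a)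
          (reg_ofFn (n + 1) a D.I ha) ?_
        intro t ht p hp
        refine le_ext_ofFn (n + 1) a D.I (hb t ?_ p hp)
        omega
  obtain ⟨r, hr, hre⟩ := key
  obtain ⟨F, hF, hFχ, hFy⟩ := Pool.Agent.Run7.h971.AQ.core D.ρ D.homogeneous
    (fun g p hp => D.stable g p hp) D.free hr hre χ hχ hy0 hy
  exact ⟨F, ⟨hF, hFχ⟩, hFy⟩

end Pool.Agent.Results.MP_9ff3e7_ag.AbelianQuotients
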