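import Pool.Agent.N212.FQ.F

/-!
# Fujita's freeness conjecture for étale quotients by arbitrary finite groups of projective
transformations

`Y ⊂ P^N` is given by a homogeneous ideal `I`, and a finite group `G` acts linearly on `ℂ^(N+1)`,
preserving `I`; the group `G/S`, `S` the subgroup of the elements acting by scalars, acts freely on
`Y`. Every finite group of projective transformations of `P^N` is such a `G/S`. Let `n = dim Y` and
`ω_Y = O(κ)`. The line bundles on `X = Y/G` whose pullback to `Y` is `O(k)` are given by the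
characters of `G` which are `c ^ k` on the elements acting by the scalar `c`. If `A_1, ..., A_m` are
line bundles on `X` with the pullbacks `O(k_1), ..., O(k_m)` then the sections of
`K_X + A_1 + ... + A_m` are the forms of degree `e = κ + k_1 + ... + k_m` on the cone over `Y` on
which `G` acts by a certain character `χ`, which is `c ^ e` on the elements acting by the scalar `c`.

Let `m ≥ n + 1` and let all `k_i` be equal to `k ≥ 1` (for example `A_1 = ... = A_m = A`), or let
`k_i ≥ k` for all `i`. Then `K_X + A_1 + ... + A_m` is globally generated in the following cases: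

* `G/S` has at most `e + 1` elements (`Y` arbitrary);
* `G/S` has at most `2 e + 1` elements, and `Y` is a complete intersection (or `I` is generated by
  forms of degree at most `e + 1`);
* `Y` is a hypersurface of positive dimension, `O(k)` is the pullback of a line bundle on `X`, and
  `O(1)` or `O(2)` is the pullback of a line bundle on `X`, or `κ ≤ n`, that is, the degree of `Y` is
  at most `2 n + 2`. In this case there is no condition on the order of the group.

The proof. It is enough to find a form of degree `e` which does not vanish at a given point `y` of `Y`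
and vanishes at the other points of the orbit; the form is then averaged with the character. If there
are at most `e` other points, this is a product of linear forms. If there are at most `2 e` other
points, such a form exists unless the point lies on a line with `e + 1` other points of the orbit; then
the line is contained in `Y` (this uses the degrees of the equations) and it is stable under a
subgroup with an element which has a fixed point on the line, a contradiction. A group which acts
freely on a hypersurface of degree `d` has at most `l d` elements if `O(l)` is the pullback of a line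
bundle on the quotient.
-/

set_option autoImplicit false

namespace Pool.Agent.Results.MP_9ff3e7_ag.EtaleQuotients

open MvPolynomial

/-- An ideal `I` in `ℂ[x_0, …, x_N]` and a linear action `ρ` of `G` on `ℂ^(N+1)`. The ideal `I` is
stable under `G`, and an element which fixes a line in the zero set of `I` acts by a scalar. -/
structure ProjectiveCover (G : Type) [Group G] (N : ℕ) where
  I : Ideal (MvPolynomial (Fin (N + 1)) ℂ)
  ρ : Representation ℂ G (Fin (N + 1) → ℂ)
  stable : ∀ (g : G), ∀ p ∈ I, bind₁ (fun i => ∑ j, C (ρ g (Pi.single j 1) i) * X j) p ∈ I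
  free : ∀ v : Fin (N + 1) → ℂ, v ≠ 0 → (∀ p ∈ I, eval v p = 0) → ∀ (g : G) (μ : ℂ),
    ρ g v = μ • v → ∃ c : ℂ, ∀ x, ρ g x = c • x

/-- `I` is generated by `c = N - n` forms of degrees `d j ≥ 1`, and `κ = ∑ d j - (N + 1)`. -/
def CompleteIntersection {N : ℕ} (I : Ideal (MvPolynomial (Fin (N + 1)) ℂ)) (n : ℕ) (κ : ℤ) :
    Prop :=
  ∃ (c : ℕ) (f : Fin c → MvPolynomial (Fin (N + 1)) ℂ) (d : Fin c → ℕ),
    (∀ j, (f j).IsHomogeneous (d j) ∧ 0 < d j) ∧ I = Ideal.span (Set.range f) ∧
    N = n + c ∧ κ = ∑ j, (d j : ℤ) - (N + 1)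

/-- `I` is generated by forms of degree at most `b`. -/
def GeneratedInDegreesLE {N : ℕ} (I : Ideal (MvPolynomial (Fin (N + 1)) ℂ)) (b : ℕ) : Prop :=
  I = Ideal.span {p | p ∈ I ∧ ∃ t ≤ b, p.IsHomogeneous t}

/-- The forms of degree `e` on which `G` acts by the character `χ`: the sections of the line bundle
on `X = Y/G` given by `e` and `χ`. -/
def Section {G : Type} [Group G] {N : ℕ} (D : ProjectiveCover G N) (e : ℕ) (χ : G →* ℂˣ)
    (F : MvPolynomial (Fin (N + 1)) ℂ) : Prop :=
  F.IsHomogeneous e ∧
    ∀ (g : G) (x : Fin (N + 1) → ℂ), eval (D.ρ g x) F = χ g * eval x F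

/-- The line bundle `O(k)` on `Y` is the pullback of a line bundle on `X = Y/G`. -/
def Descends {G : Type} [Group G] {N : ℕ} (D : ProjectiveCover G N) (k : ℕ) : Prop :=
  ∃ θ : G →* ℂˣ, ∀ (g : G) (c : ℂ), (∀ x, D.ρ g x = c • x) → (θ g : ℂ) = c ^ k

/-- The order of the group `G/S` which acts on `X`, `S` the subgroup of the scalars. -/
noncomputable def order {G : Type} [Group G] {N : ℕ} (D : ProjectiveCover G N) : ℕ :=
  Nat.card G / Nat.card {g : G // ∃ c : ℂ, ∀ x, D.ρ g x = c • x}

/-- Let `k ≥ 1`, `m ≥ n + 1` and `e ≥ κ + m k`, and let `χ` be a character which is `c ^ e` on the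
elements acting by the scalar `c`. Then the forms of degree `e` with the character `χ` have no common
zero on `Y` in each of the three cases. -/
theorem result {G : Type} [Group G] [Finite G] {N : ℕ} (D : ProjectiveCover G N) (n : ℕ) (κ : ℤ)
    (k m e : ℕ) (hk : 1 ≤ k) (hm : n + 1 ≤ m) (he : κ + m * k ≤ (e : ℤ))
    (h : (order D ≤ e + 1 ∧ ∃ b, GeneratedInDegreesLE D.I b) ∨
      (order D ≤ 2 * e + 1 ∧ (CompleteIntersection D.I n κ ∨ GeneratedInDegreesLE D.I (e + 1))) ∨
      (CompleteIntersection D.I n κ ∧ 1 ≤ n ∧ N = n + 1 ∧ Descends D k ∧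
        (Descends D 1 ∨ Descends D 2 ∨ κ ≤ n)))
    (χ : G →* ℂˣ) (hχ : ∀ (g : G) (c : ℂ), (∀ x, D.ρ g x = c • x) → (χ g : ℂ) = c ^ e) :
    ∀ y : Fin (N + 1) → ℂ, y ≠ 0 → (∀ p ∈ D.I, eval y p = 0) →
      ∃ F, Section D e χ F ∧ eval y F ≠ 0 := by
  have hmk : (n : ℤ) + 1 ≤ m * k := by
    have h1 : n + 1 ≤ m * k := hm.trans (Nat.le_mul_of_pos_right m hk)
    exact_mod_cast h1
  have hcard : ∀ b : ℕ, order D ≤ b → (Pool.Agent.N212.FQ.scalars D.ρ).index ≤ b := by
    intro b hb
    have h1 := Subgroup.index_mul_card (Pool.Agent.N212.FQ.scalars D.ρ)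
    have h2 : Nat.card (Pool.Agent.N212.FQ.scalars D.ρ) =
      Nat.card {g : G // ∃ c : ℂ, ∀ x, D.ρ g x = c • x} := rfl
    have h3 : 0 < Nat.card (Pool.Agent.N212.FQ.scalars D.ρ) := Nat.card_pos
    have h4 : order D = (Pool.Agent.N212.FQ.scalars D.ρ).index := by
      unfold order
      rw [← h2, ← h1, Nat.mul_div_cancel _ h3]
    omega
  rcases h with ⟨h, b, hb⟩ | ⟨h, hY⟩ | ⟨⟨c, f, d, hfd, hI, hN, hκ⟩, hn, hNn, hk', hD⟩
  · -- few elements
    choose t ht1 ht2 using fun p : {p | p ∈ D.I ∧ ∃ t ≤ b, p.IsHomogeneous t} => p.2.2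
    have hI : D.I = Ideal.span (Set.range (Subtype.val :
        {p | p ∈ D.I ∧ ∃ t ≤ b, p.IsHomogeneous t} → MvPolynomial (Fin (N + 1)) ℂ)) := by
      rw [Subtype.range_val]
      exact hb
    have hS := Pool.Agent.N212.FQ.free_of_ideal ht2 hI D.stable D.free
    intro y hy0 hy
    exact Pool.Agent.N212.FQ.freeness hS (hcard _ h) χ hχ hy0
      ((Pool.Agent.N212.FQ.zero_iff hI y).2 hy)
  · -- twice as many elements
    have hgen : ∃ (J : Type) (f : J → MvPolynomial (Fin (N + 1)) ℂ) (d : J → ℕ),
        (∀ j, (f j).IsHomogeneous (d j)) ∧ (∀ j, d j ≤ e + 1) ∧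
        D.I = Ideal.span (Set.range f) := by
      rcases hY with ⟨c, f, d, hfd, hI, hN, hκ⟩ | h
      · refine ⟨Fin c, f, d, fun j => (hfd j).1, fun j => ?_, hI⟩
        have h1 : ∑ i, ((d i : ℤ) - 1) = ∑ i, (d i : ℤ) - c := by
          rw [Finset.sum_sub_distrib]
          simp
        have h2 : (d j : ℤ) - 1 ≤ ∑ i, ((d i : ℤ) - 1) :=
          Finset.single_le_sum (f := fun i => (d i : ℤ) - 1) (fun i _ => by
            have := (hfd i).2
            omega) (Finset.mem_univ j)
        have h3 : (N : ℤ) = n + c := by exact_mod_cast hN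
        have h4 : (d j : ℤ) ≤ e + 1 := by linarith
        exact_mod_cast h4
      · choose t ht1 ht2 using fun p : {p | p ∈ D.I ∧ ∃ t ≤ e + 1, p.IsHomogeneous t} => p.2.2
        refine ⟨_, Subtype.val, t, ht2, ht1, ?_⟩
        rw [Subtype.range_val]
        exact h
    obtain ⟨J, f, d, hf, hd, hI⟩ := hgen
    have hS := Pool.Agent.N212.FQ.free_of_ideal hf hI D.stable D.free
    intro y hy0 hy
    exact Pool.Agent.N212.FQ.freeness2 hS (hcard _ h) hd χ hχ hy0
      ((Pool.Agent.N212.FQ.zero_iff hI y).2 hy)
  · -- hypersurfaces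
    obtain rfl : c = 1 := by omega
    have h1 : Set.range f = {f 0} := by
      ext x
      simp [eq_comm]
    have hI' := hI
    rw [h1] at hI'
    have h2 : ∀ l : ℕ, 1 ≤ l → Descends D l →
        (Pool.Agent.N212.FQ.scalars D.ρ).index ≤ l * d 0 := by
      rintro l hl ⟨θ, hθ⟩
      exact Pool.Agent.N212.FQ.index_hypersurface (ρ := D.ρ) (by omega) (hfd 0).2 hl (hfd 0).1
        (by
          rw [← hI']
          exact D.stable) (by
          rw [← hI']
          exact D.free) θ hθ
    have hκ' : κ = d 0 - (n + 2) := by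
      rw [hκ, Fin.sum_univ_one, hNn]
      push_cast
      ring
    have hd1 : d 0 ≤ e + 1 := by
      have h3 : (d 0 : ℤ) ≤ e + 1 := by linarith
      exact_mod_cast h3
    have hS := Pool.Agent.N212.FQ.free_of_ideal (fun j => (hfd j).1) hI D.stable D.free
    have hr : (Pool.Agent.N212.FQ.scalars D.ρ).index ≤ 2 * e + 1 := by
      have hone : Descends D 1 → (Pool.Agent.N212.FQ.scalars D.ρ).index ≤ 2 * e + 1 := by
        intro h3
        have := h2 1 le_rfl h3
        omega
      have hkn : ((n : ℤ) + 1) * k ≤ m * k := by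
        have h5 : (n + 1) * k ≤ m * k := Nat.mul_le_mul_right k hm
        exact_mod_cast h5
      rcases hD with hD | hD | hD
      · exact hone hD
      · rcases Nat.lt_or_ge k 2 with h3 | h3
        · obtain rfl : k = 1 := by omega
          exact hone hk'
        · have h4 := h2 2 (by norm_num) hD
          have h5 : (2 : ℤ) ≤ k := by exact_mod_cast h3
          have h6 : ((2 * d 0 : ℕ) : ℤ) ≤ ((2 * e + 1 : ℕ) : ℤ) := by
            push_cast
            nlinarith
          have h7 : 2 * d 0 ≤ 2 * e + 1 := by exact_mod_cast h6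
          omega
      · rcases Nat.lt_or_ge k 2 with h3 | h3
        · obtain rfl : k = 1 := by omega
          exact hone hk'
        · have h4 := h2 k hk hk'
          have h5 : (2 : ℤ) ≤ k := by exact_mod_cast h3
          have h6 : ((k * d 0 : ℕ) : ℤ) ≤ ((2 * e + 1 : ℕ) : ℤ) := by
            push_cast
            have h8 : (0 : ℤ) ≤ (k - 2) * (n - κ) := mul_nonneg (by linarith) (by linarith)
            have h9 : (0 : ℤ) ≤ n := by positivity
            nlinarith
          have h7 : k * d 0 ≤ 2 * e + 1 := by exact_mod_cast h6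
          omega
    intro y hy0 hy
    exact Pool.Agent.N212.FQ.freeness2 hS hr (fun j => by
      obtain rfl : j = 0 := Subsingleton.elim _ _
      exact hd1) χ hχ hy0 ((Pool.Agent.N212.FQ.zero_iff hI y).2 hy)

end Pool.Agent.Results.MP_9ff3e7_ag.EtaleQuotients
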