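import Pool.Agent.Run7.h277.WF.Multi

/-!
# Fujita's freeness conjecture for complete intersections in products of weighted projective spaces
# with pairwise coprime weights

Let `P = P_1 × ... × P_r` be a product of weighted projective spaces over `ℂ`, `P_s` of dimension
`N_s` with pairwise coprime weights `a_{s,0}, ..., a_{s,N_s}`, and let `X ⊆ P` be a complete
intersection of dimension `n` of hypersurfaces `f_j = 0` of multidegrees `(d_{j,1}, ..., d_{j,r})`,
`j = 1, ..., c`, in any codimension `c`, such that the sheaves `O(m_1, ..., m_r)` are invertible on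
`X` (`hgcd`: the torus `(ℂ^*)^r` acts with trivial stabilisers at the points over `X`, in other
words no point of `X` has a component `(0, ..., 1, ..., 0)` with a weight `a_{s,i} > 1`). Then
`K_X = O(∑_j d_{j,1} - ∑_i a_{1,i}, ...)`. The bundles `A = O(k_1, ..., k_r)` with all `k_s ≥ 1` are
ample. Let `A_1, ..., A_m` be such bundles, `m ≥ n + 1`; for example all of them equal to one `A`.
Then the bundle `K_X + A_1 + ... + A_m = O(e_1, ..., e_r)` is globally generated: for each point of
`X` there is a form of multidegree `(e_1, ..., e_r)`, `e_s ≥ 0`, which does not vanish there.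

`X` need not be smooth, nor even a complete intersection: only `n + c = ∑ N_s` is used, and
`hz`, that for every `s` at most `∑_{t ≠ s} N_t` of the `f_j` have degree `0` in the variables of
`P_s`. (A nonempty complete intersection has this property, since the projection of `X` to the
product of the other factors lies in the complete intersection of these `f_j`.)

The proof. Fix a point of `X` and a factor `P_s`, and restrict the `f_j` to the copy of `P_s`
through the point. One has to show that `e_s` lies in the semigroup generated by the weights `a_i`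
of the nonzero coordinates `x_i` of the point in `P_s`. A pure power of each `x_i` with `a_i > 1`
appears in some restricted `f_j`, `j = J(i)`. As the product of the `a_i` with `J(i) = j` divides
`d_j`, one gets `e_s ≥ ∑ ε_j`, where `ε_j = d_j - 1 - ∑_{J(i) = j} (a_i - 1) ≥ 0`. If two nonzero
coordinates `x_i`, `x_l` have the same `J`, then `e_s ≥ (a_i - 1)(a_l - 1)` is in the semigroup
generated by `a_i` and `a_l`. If not, then, as `f_{J(i)}` vanishes at the point, it contains besides
the power of `x_i` a second monomial in the nonzero coordinates, and the relations between the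
weights obtained in this way bound the Frobenius number of the semigroup
(`Pool.Agent.Run7.h277.WF.chip`, `Pool.Agent.Run7.h277.WF.core`), by an argument with chip firing on
the directed graph of these relations.
-/

set_option autoImplicit false

namespace Pool.Agent.Results.MP_9ff3e7_ag.ProductsOfWeightedSpaces

open MvPolynomial

/-- The weights of the variables `x_{t,i}` for the degree in the variables of the factor `P_s`: the
weight is `a_{s,i}` if `t = s`, and `0` if not. -/
def weight {r : ℕ} {N : Fin r → ℕ} (a : ∀ s, Fin (N s + 1) → ℕ) (s : Fin r)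
    (p : (t : Fin r) × Fin (N t + 1)) : ℕ :=
  if p.1 = s then a p.1 p.2 else 0

/-- Fujita's freeness conjecture for the complete intersections `X` of dimension `n` in products of
weighted projective spaces with pairwise coprime weights, on which the sheaves `O(m_1, ..., m_r)` are
invertible: `K_X + A_1 + ... + A_m` is globally generated if `m ≥ n + 1`,
`A_i = O(A i 1, ..., A i r)`, `A i s ≥ 1`. -/
theorem result (r c n : ℕ) (N : Fin r → ℕ) (a : ∀ s, Fin (N s + 1) → ℕ) (ha : ∀ s i, 0 < a s i)
    (hcop : ∀ s i i', i ≠ i' → Nat.Coprime (a s i) (a s i')) (d : Fin c → Fin r → ℕ)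
    (f : Fin c → MvPolynomial ((s : Fin r) × Fin (N s + 1)) ℂ)
    (hf : ∀ j s, IsWeightedHomogeneous (weight a s) (f j) (d j s))
    -- the sheaves `O(m_1, ..., m_r)` are invertible on `X`
    (hgcd : ∀ v : (s : Fin r) × Fin (N s + 1) → ℂ, (∀ s, ∃ i, v ⟨s, i⟩ ≠ 0) →
      (∀ j, eval v (f j) = 0) → ∀ s, ∀ g : ℕ, (∀ i, v ⟨s, i⟩ ≠ 0 → g ∣ a s i) → g = 1)
    -- `X` has the expected dimension `n`
    (hn : n + c = ∑ s, N s)
    (hz : ∀ s, (Finset.univ.filter fun j => d j s = 0).card + N s ≤ ∑ t, N t)
    -- the ample bundles `A_1, ..., A_m`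
    (m : ℕ) (hm : n + 1 ≤ m) (A : Fin m → Fin r → ℕ) (hA : ∀ i s, 1 ≤ A i s) :
    ∀ v : (s : Fin r) × Fin (N s + 1) → ℂ, (∀ s, ∃ i, v ⟨s, i⟩ ≠ 0) →
      (∀ j, eval v (f j) = 0) →
      ∃ e : Fin r → ℕ,
        (∀ s, (e s : ℤ) = ∑ j, (d j s : ℤ) - ∑ i, (a s i : ℤ) + ∑ i, (A i s : ℤ)) ∧
        ∃ σ : MvPolynomial ((s : Fin r) × Fin (N s + 1)) ℂ,
          (∀ s, IsWeightedHomogeneous (weight a s) σ (e s)) ∧ eval v σ ≠ 0 := by
  classical
  intro v hv hvf
  have hAs : ∀ s, ((n : ℤ) + 1) ≤ ∑ i, (A i s : ℤ) := by
    intro s
    have h1 : m ≤ ∑ i, A i s := by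
      calc m = ∑ _i : Fin m, 1 := by simp
        _ ≤ ∑ i, A i s := Finset.sum_le_sum fun i _ => hA i s
    have h2 : n + 1 ≤ ∑ i, A i s := hm.trans h1
    exact_mod_cast h2
  have hmain := fun s => Pool.Agent.Run7.h277.WF.multi N a ha hcop d f hf hgcd n hn hz v hv hvf s
    (∑ j, (d j s : ℤ) - ∑ i, (a s i : ℤ) + ∑ i, (A i s : ℤ)) (by linarith [hAs s])
  choose h0 y hyv hy using hmain
  have he : ∀ s, ∃ e : ℕ,
      (e : ℤ) = ∑ j, (d j s : ℤ) - ∑ i, (a s i : ℤ) + ∑ i, (A i s : ℤ) := fun s => by
    obtain ⟨e, he⟩ := Int.eq_ofNat_of_zero_le (h0 s)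
    exact ⟨e, he.symm⟩
  choose e he using he
  refine ⟨e, he, monomial (Finsupp.equivFunOnFinite.symm fun p => y p.1 p.2) 1, fun s => ?_, ?_⟩
  · refine isWeightedHomogeneous_monomial _ _ _ ?_
    rw [Finsupp.weight_apply, Finsupp.sum_fintype _ _ (fun i => by simp)]
    have h2 : ∑ i, y s i * a s i = e s := by
      have h3 := hy s
      rw [← he s] at h3
      exact_mod_cast h3
    have h4 : ∑ p : (t : Fin r) × Fin (N t + 1), y p.1 p.2 * weight a s p = e s := by
      rw [Fintype.sum_sigma, Finset.sum_eq_single s]
      · rw [← h2]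
        refine Finset.sum_congr rfl fun i _ => ?_
        simp [weight]
      · intro t _ ht
        refine Finset.sum_eq_zero fun i _ => ?_
        simp [weight, ht]
      · intro h
        exact absurd (Finset.mem_univ s) h
    simpa using h4
  · rw [eval_monomial, one_mul, Finsupp.prod_fintype _ _ (fun i => by simp)]
    refine Finset.prod_ne_zero_iff.2 fun p _ => ?_
    by_cases hi : y p.1 p.2 = 0
    · simp [hi]
    · exact pow_ne_zero _ (hyv p.1 p.2 hi)

end Pool.Agent.Results.MP_9ff3e7_ag.ProductsOfWeightedSpaces
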